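import Pool.Agent.Work.MP_7f4e13_co.S.Basic

/-!
From branch sets to deletions and contractions, and the two forms of star-freeness.
-/

namespace Pool.Agent.Work.MP_7f4e13_co.S

open Pool.Agent.Work.MP_97603a_co (Reach reach_seg)

theorem card_ne_lt {V : Type} [Finite V] (v : V) : Nat.card {x // x ≠ v} < Nat.card V :=
  Finite.card_subtype_lt (x := v) (by simp)

theorem Model.del {V W : Type} {G : SimpleGraph V} {H : SimpleGraph W} {B : W → Set V} {v : V}
    (h1 : ∀ w, (B w).Nonempty ∧ Conn G (B w))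
    (h2 : ∀ w w', w ≠ w' → Disjoint (B w) (B w') ∧ (H.Adj w w' ↔ Touch G (B w) (B w')))
    (hv : ∀ w, v ∉ B w) : Model (G.induce {x | x ≠ v}) H := by
  have hne : ∀ w, ∀ x ∈ B w, x ≠ v := fun w x hx e => hv w (e ▸ hx)
  refine ⟨fun w => {x | x.1 ∈ B w}, fun w => ⟨?_, fun x hx y hy => ?_⟩, fun w w' e => ⟨?_, ?_⟩⟩
  · obtain ⟨x, hx⟩ := (h1 w).1
    exact ⟨⟨x, hne w x hx⟩, hx⟩
  · have := ((h1 w).2 _ hx _ hy).ind (P := fun z => ∀ hz : z ≠ v,
      Reach (G.induce {x | x ≠ v}).Adj {x | x.1 ∈ B w} x ⟨z, hz⟩) (fun _ => Reach.refl hx)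
      fun a b ha ih e hb _ => (ih (hne w a ha.right_mem)).tail e hb
    exact this y.2
  · exact Set.disjoint_left.2 fun x hx hx' => Set.disjoint_left.1 (h2 w w' e).1 hx hx'
  · exact (h2 w w' e).2.trans ⟨fun ⟨x, hx, y, hy, e⟩ =>
      ⟨⟨x, hne w x hx⟩, hx, ⟨y, hne w' y hy⟩, hy, e⟩, fun ⟨x, hx, y, hy, e⟩ => ⟨x, hx, y, hy, e⟩⟩

theorem Model.con {V W : Type} {G : SimpleGraph V} {H : SimpleGraph W} {B : W → Set V} {u v : V}
    (h1 : ∀ w, (B w).Nonempty ∧ Conn G (B w))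
    (h2 : ∀ w w', w ≠ w' → Disjoint (B w) (B w') ∧ (H.Adj w w' ↔ Touch G (B w) (B w')))
    {w₀ : W} (hu : u ∈ B w₀) (hv : v ∈ B w₀) (huv : u ≠ v) : Model (contract G u v) H := by
  classical
  let π : V → {x // x ≠ v} := fun x => if h : x = v then ⟨u, huv⟩ else ⟨x, h⟩
  have huniq : ∀ w w' x, x ∈ B w → x ∈ B w' → w = w' := fun w w' x hx hx' => by
    by_contra e
    exact Set.disjoint_left.1 (h2 w w' e).1 hx hx'
  have hπ : ∀ w, ∀ x ∈ B w, (π x).1 ∈ B w := by
    intro w x hx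
    by_cases e : x = v
    · simp only [π, e, dif_pos]
      rwa [huniq w w₀ v (e ▸ hx) hv]
    · simpa only [π, e, dif_neg, not_false_eq_true] using hx
  have hπ' : ∀ x : {x // x ≠ v}, π x = x := fun x => by simp only [π, x.2, dif_neg, not_false_eq_true]
  have hadj : ∀ x y, G.Adj x y → π x = π y ∨ (contract G u v).Adj (π x) (π y) := by
    intro x y e
    by_cases e0 : π x = π y
    · exact Or.inl e0
    refine Or.inr ((SimpleGraph.fromRel_adj _ _ _).2 ⟨e0, ?_⟩)
    by_cases e1 : x = v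
    · have e2 : y ≠ v := fun e2 => e.ne (e1.trans e2.symm)
      left; right
      simp only [π, e1, e2, dif_pos, dif_neg, not_false_eq_true, true_and]
      exact e1 ▸ e
    by_cases e2 : y = v
    · right; right
      simp only [π, e1, e2, dif_pos, dif_neg, not_false_eq_true, true_and]
      exact e2 ▸ e.symm
    · left; left
      simpa only [π, e1, e2, dif_neg, not_false_eq_true] using e
  refine ⟨fun w => {x | x.1 ∈ B w}, fun w => ⟨?_, fun x hx y hy => ?_⟩, fun w w' e => ⟨?_, ?_⟩⟩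
  · obtain ⟨x, hx⟩ := (h1 w).1
    exact ⟨π x, hπ w x hx⟩
  · have := ((h1 w).2 _ hx _ hy).ind (P := fun z =>
      Reach (contract G u v).Adj {x | x.1 ∈ B w} x (π z)) (by rw [hπ']; exact Reach.refl hx)
      fun a b _ ih e hb => by
        rcases hadj a b e with e' | e'
        · rwa [← e']
        · exact ih.tail e' (hπ w b hb)
    rwa [hπ'] at this
  · exact Set.disjoint_left.2 fun x hx hx' => Set.disjoint_left.1 (h2 w w' e).1 hx hx'
  · refine (h2 w w' e).2.trans ⟨fun ⟨x, hx, y, hy, e'⟩ => ⟨π x, hπ w x hx, π y, hπ w' y hy, ?_⟩,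
      fun ⟨x, hx, y, hy, e'⟩ => ?_⟩
    · refine (hadj x y e').resolve_left fun e'' => e (huniq w w' (π x).1 (hπ w x hx) ?_)
      rw [e'']
      exact hπ w' y hy
    · rcases ((SimpleGraph.fromRel_adj _ _ _).1 e').2 with (a | ⟨a, b⟩) | a | ⟨a, b⟩
      · exact ⟨_, hx, _, hy, a⟩
      · exact ⟨v, huniq w₀ w u hu (a ▸ hx) ▸ hv, _, hy, b⟩
      · exact ⟨_, hx, _, hy, a.symm⟩
      · exact ⟨_, hx, v, huniq w₀ w' u hu (a ▸ hy) ▸ hv, b.symm⟩

theorem isIndMinor_aux {W : Type} (H : SimpleGraph W) (n : ℕ) :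
    ∀ (V : Type) [Finite V] (G : SimpleGraph V), Nat.card V = n → Model G H → IsIndMinor H G := by
  induction n using Nat.strong_induction_on with
  | _ n ih =>
  rintro V _ G rfl ⟨B, h1, h2⟩
  by_cases c1 : ∃ v, ∀ w, v ∉ B w
  · obtain ⟨v, hv⟩ := c1
    exact IsIndMinor.del v (ih _ (card_ne_lt v) _ _ rfl (Model.del h1 h2 hv))
  by_cases c2 : ∃ w, ∃ u ∈ B w, ∃ v ∈ B w, G.Adj u v
  · obtain ⟨w, u, hu, v, hv, e⟩ := c2
    exact IsIndMinor.con u v e (ih _ (card_ne_lt v) _ _ rfl (Model.con h1 h2 hu hv e.ne))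
  push Not at c1 c2
  choose f hf using fun w => (h1 w).1
  have hs : ∀ w, ∀ x ∈ B w, x = f w := fun w x hx => by
    rcases ((h1 w).2 x hx _ (hf w)).cases_head with e | ⟨c, e, e'⟩
    · exact e
    · exact absurd e (c2 w x hx c e'.1)
  have hb : Function.Bijective f := ⟨fun w w' e => by
    by_contra hne
    exact Set.disjoint_left.1 (h2 w w' hne).1 (hf w) (e ▸ hf w'), fun v => by
    obtain ⟨w, hw⟩ := c1 v
    exact ⟨w, (hs w v hw).symm⟩⟩
  refine IsIndMinor.iso ⟨⟨Equiv.ofBijective f hb, fun {w w'} => ?_⟩⟩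
  by_cases e : w = w'
  · simp [e]
  · exact ⟨fun a => (h2 w w' e).2.2 ⟨_, hf w, _, hf w', a⟩, fun a => by
      obtain ⟨x, hx, y, hy, a'⟩ := (h2 w w' e).2.1 a
      rwa [hs w x hx, hs w' y hy] at a'⟩

theorem Model.isIndMinor {V W : Type} [Finite V] {G : SimpleGraph V} {H : SimpleGraph W}
    (h : Model G H) : IsIndMinor H G :=
  isIndMinor_aux H _ V G rfl h

theorem sf_of_isEmpty {V : Type} {G : SimpleGraph V} {d : ℕ}
    (h : IsEmpty (completeBipartiteGraph (Fin 1) (Fin d) ↪g G)) : SF G d := by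
  intro v s h1 h2
  by_contra hc
  obtain ⟨e⟩ : Nonempty (Fin d ↪ s) := Function.Embedding.nonempty_of_card_le (by simpa using hc)
  refine h.false ⟨⟨Sum.elim (fun _ => v) fun i => e i, ?_⟩, ?_⟩
  · rintro (a | a) (b | b) hab
    · rw [Subsingleton.elim a b]
    · exact absurd hab (h1 _ (e b).2).ne
    · exact absurd hab (h1 _ (e a).2).ne'
    · rw [e.injective (Subtype.ext hab)]
  · rintro (a | a) (b | b)
    · simp
    · simpa using h1 _ (e b).2
    · simpa using (h1 _ (e a).2).symm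
    · simpa using h2 _ (e a).2 _ (e b).2

/-- Large tree-independence number: every tree decomposition has a bag with a large independent
set. -/
theorem exists_bag {V : Type} [Finite V] {G : SimpleGraph V} {f : ℕ} (h : f < treeAlpha G)
    (D : TreeDecomp G) : ∃ t, ¬ AlLe G (D.bag t) f := by
  classical
  by_contra hc
  push Not at hc
  refine absurd h (not_lt.2 (Nat.sInf_le ⟨D, fun t => ?_⟩))
  obtain ⟨s, hs⟩ := (G.induce (D.bag t)).exists_isNIndepSet_indepNum
  rw [← hs.card_eq, ← Finset.card_map (Function.Embedding.subtype _)]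
  refine hc t _ (fun x hx => ?_) fun x hx y hy e => ?_
  · obtain ⟨a, -, rfl⟩ := Finset.mem_map.1 hx
    exact a.2
  · obtain ⟨a, ha, rfl⟩ := Finset.mem_map.1 hx
    obtain ⟨b, hb, rfl⟩ := Finset.mem_map.1 hy
    exact hs.isIndepSet ha hb (fun e' => e.ne (by rw [e'])) e

end Pool.Agent.Work.MP_7f4e13_co.S
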